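import Pool.Agent.H41.CP.GDefs

set_option autoImplicit false

/-! Two R-blocks of the same family (CPG-RR). -/

namespace Pool.Agent.H52.CPG.RR

open Pool.Agent.H41.CPG

theorem ia_self {α : Type} (f : Equiv.Perm α) (x : α) : f⁻¹ (f x) = x := f.symm_apply_apply x

theorem ai_self {α : Type} (f : Equiv.Perm α) (x : α) : f (f⁻¹ x) = x := f.apply_symm_apply x

/-- the values of the family in a row -/
def FX {r : ℕ} (F : Fin r → PP r) (x : Fin (2 * r)) : Finset (Fin (2 * r)) :=
  Finset.univ.image fun i => F i x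

theorem card_FX_le {r : ℕ} (F : Fin r → PP r) (x : Fin (2 * r)) : (FX F x).card ≤ r := by
  refine Finset.card_image_le.trans ?_
  rw [Finset.card_univ, Fintype.card_fin]

/-- facts on a row of an R-block -/
theorem row {r : ℕ} {F : Fin r → PP r} {g : PP r} {S T : Finset (Fin (2 * r))} (h : RB F g S T)
    {x : Fin (2 * r)} (hx : x ∈ S) : (FX F x).card = r ∧ g x ∉ FX F x ∧ FX F x ⊆ T ∧ g x ∈ T ∧
      ∀ c ∈ T, c = g x ∨ c ∈ FX F x := by
  obtain ⟨hS, hT, hrow⟩ := h
  have h1 : insert (g x) (FX F x) = T := hrow x hx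
  have h2 := card_FX_le F x
  have h3 : g x ∉ FX F x := by
    intro h4
    rw [Finset.insert_eq_of_mem h4] at h1
    rw [h1, hT] at h2
    omega
  have h4 : (FX F x).card + 1 = T.card := by
    rw [← h1, Finset.card_insert_of_notMem h3]
  refine ⟨by omega, h3, ?_, ?_, ?_⟩
  · rw [← h1]
    exact Finset.subset_insert _ _
  · rw [← h1]
    exact Finset.mem_insert_self _ _
  · intro c hc
    rw [← h1, Finset.mem_insert] at hc
    exact hc

/-- the values in a row are different -/
theorem row_inj {r : ℕ} {F : Fin r → PP r} {g : PP r} {S T : Finset (Fin (2 * r))}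
    (h : RB F g S T) {x : Fin (2 * r)} (hx : x ∈ S) : Function.Injective fun i => F i x := by
  have h1 := (row h hx).1
  have h2 : (Finset.univ.image fun i => F i x).card = (Finset.univ : Finset (Fin r)).card := by
    rw [Finset.card_univ, Fintype.card_fin]
    exact h1
  have h3 := Finset.card_image_iff.1 h2
  intro i j hij
  exact h3 (Finset.mem_coe.2 (Finset.mem_univ i)) (Finset.mem_coe.2 (Finset.mem_univ j)) hij

/-- a column of the block is hit inside of the block by all but at most one index -/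
theorem col {r : ℕ} {F : Fin r → PP r} {g : PP r} {S T : Finset (Fin (2 * r))} (h : RB F g S T)
    {c : Fin (2 * r)} (hc : c ∈ T) :
    r ≤ (Finset.univ.filter fun i => (F i)⁻¹ c ∈ S).card + 1 := by
  have h1 : S ⊆ insert (g⁻¹ c)
      ((Finset.univ.filter fun i => (F i)⁻¹ c ∈ S).image fun i => (F i)⁻¹ c) := by
    intro x hx
    rcases (row h hx).2.2.2.2 c hc with h2 | h2
    · refine Finset.mem_insert.2 (Or.inl ?_)
      rw [h2, ia_self]
    · refine Finset.mem_insert.2 (Or.inr ?_)
      obtain ⟨i, -, hi⟩ := Finset.mem_image.1 h2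
      refine Finset.mem_image.2 ⟨i, ?_, ?_⟩
      · rw [Finset.mem_filter]
        refine ⟨Finset.mem_univ i, ?_⟩
        rw [← hi, ia_self]
        exact hx
      · rw [← hi, ia_self]
  have h2 := Finset.card_le_card h1
  rw [h.1] at h2
  exact h2.trans ((Finset.card_insert_le _ _).trans (Nat.add_le_add_right Finset.card_image_le 1))

theorem case_eq {r : ℕ} {F : Fin r → PP r} {g g' : PP r} {S T S' : Finset (Fin (2 * r))}
    (hr : 4 ≤ r) (h : RB F g S T) (h' : RB F g' S' T) :
    r - 1 ≤ (S ∩ S').card ∧ ∀ x ∈ S ∩ S', g x = g' x := by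
  constructor
  · have h1 : (S ∪ S').card ≤ T.card := by
      refine Finset.card_le_card_of_injOn (fun x => F ⟨0, by omega⟩ x) ?_
        (fun x _ y _ hxy => (F ⟨0, by omega⟩).injective hxy)
      intro x hx
      have hx' : x ∈ S ∪ S' := hx
      show F ⟨0, by omega⟩ x ∈ T
      have h3 : F ⟨0, by omega⟩ x ∈ FX F x :=
        Finset.mem_image.2 ⟨_, Finset.mem_univ _, rfl⟩
      rcases Finset.mem_union.1 hx' with h2 | h2
      · exact (row h h2).2.2.1 h3
      · exact (row h' h2).2.2.1 h3
    have h2 := Finset.card_union_add_card_inter S S'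
    rw [h.2.1] at h1
    rw [h.1, h'.1] at h2
    omega
  · intro x hx
    obtain ⟨hx1, hx2⟩ := Finset.mem_inter.1 hx
    rcases (row h' hx2).2.2.2.2 (g x) (row h hx1).2.2.2.1 with h1 | h1
    · exact h1
    · exact absurd h1 (row h hx1).2.1

theorem case_ne {r : ℕ} {F : Fin r → PP r} {g g' : PP r} {S T S' T' : Finset (Fin (2 * r))}
    (hr : 4 ≤ r) (h : RB F g S T) (h' : RB F g' S' T') : T = T' := by
  by_contra hne
  have hTT : (T ∩ T').card ≤ r := by
    by_contra hc
    push Not at hc
    have h1 : T ∩ T' = T := Finset.eq_of_subset_of_card_le Finset.inter_subset_left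
      (by rw [h.2.1]; omega)
    have h2 : T ∩ T' = T' := Finset.eq_of_subset_of_card_le Finset.inter_subset_right
      (by rw [h'.2.1]; omega)
    exact hne (h1.symm.trans h2)
  have hSS : (S ∩ S').card ≤ 1 := by
    rw [Finset.card_le_one]
    intro x hx y hy
    obtain ⟨hx1, hx2⟩ := Finset.mem_inter.1 hx
    obtain ⟨hy1, hy2⟩ := Finset.mem_inter.1 hy
    have e1 : FX F x = T ∩ T' := Finset.eq_of_subset_of_card_le
      (Finset.subset_inter (row h hx1).2.2.1 (row h' hx2).2.2.1) (by rw [(row h hx1).1]; exact hTT)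
    have e2 : FX F y = T ∩ T' := Finset.eq_of_subset_of_card_le
      (Finset.subset_inter (row h hy1).2.2.1 (row h' hy2).2.2.1) (by rw [(row h hy1).1]; exact hTT)
    have e3 : g y ∉ FX F x := by
      rw [e1, ← e2]
      exact (row h hy1).2.1
    rcases (row h hx1).2.2.2.2 (g y) (row h hy1).2.2.2.1 with e4 | e4
    · exact (g.injective e4).symm
    · exact absurd e4 e3
  have hc : ∃ c, c ∈ T ∩ T' := by
    have h1 := Finset.card_union_add_card_inter T T'
    have h2 : (T ∪ T').card ≤ 2 * r := by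
      refine (Finset.card_le_univ _).trans ?_
      rw [Fintype.card_fin]
    rw [h.2.1, h'.2.1] at h1
    have h3 : 0 < (T ∩ T').card := by omega
    exact Finset.card_pos.1 h3
  obtain ⟨c, hc⟩ := hc
  obtain ⟨hc1, hc2⟩ := Finset.mem_inter.1 hc
  have h1 := col h hc1
  have h2 := col h' hc2
  obtain ⟨I, hI⟩ : ∃ I : Finset (Fin r), I = Finset.univ.filter fun i => (F i)⁻¹ c ∈ S := ⟨_, rfl⟩
  obtain ⟨I', hI'⟩ : ∃ I' : Finset (Fin r), I' = Finset.univ.filter fun i => (F i)⁻¹ c ∈ S' :=
    ⟨_, rfl⟩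
  rw [← hI] at h1
  rw [← hI'] at h2
  have h3 := Finset.card_union_add_card_inter I I'
  have h4 : (I ∪ I').card ≤ r := by
    refine (Finset.card_le_univ _).trans ?_
    rw [Fintype.card_fin]
  have h5 : (I ∩ I').card ≤ (S ∩ S').card := by
    refine Finset.card_le_card_of_injOn (fun i => (F i)⁻¹ c) ?_ ?_
    · intro i hi
      have hi' : i ∈ I ∩ I' := hi
      rw [hI, hI', Finset.mem_inter, Finset.mem_filter, Finset.mem_filter] at hi'
      exact Finset.mem_inter.2 ⟨hi'.1.2, hi'.2.2⟩
    · intro i hi j hj hij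
      have hi' : i ∈ I ∩ I' := hi
      rw [hI, hI', Finset.mem_inter, Finset.mem_filter, Finset.mem_filter] at hi'
      have hij' : (F i)⁻¹ c = (F j)⁻¹ c := hij
      refine row_inj h hi'.1.2 ?_
      show F i ((F i)⁻¹ c) = F j ((F i)⁻¹ c)
      rw [ai_self, hij', ai_self]
  omega

theorem grr : S_GRR := by
  intro r hr F g g' S T S' T' h h'
  obtain rfl := case_ne hr h h'
  exact ⟨rfl, case_eq hr h h'⟩

end Pool.Agent.H52.CPG.RR
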